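import Pool.Agent.Lib.MP_1bca0d_an.Bridge

/-!
The global dimension and the bidimension of `C[0,1]` are both infinite.
-/

open Pool.Agent.Lib.MP_1bca0d_an.Spec

/-- `dg C[0,1] = ∞` and `db C[0,1] = ∞`. -/
theorem Pool.Agent.Results.MP_1bca0d_an.DgDbUnitInterval.result :
    dg C(unitInterval, ℂ) = ⊤ ∧ db C(unitInterval, ℂ) = ⊤ := by
  have hK : ∀ (U : Set unitInterval) (t : unitInterval), IsOpen U → t ∈ U →
      (U \ {t}).Nonempty := by
    intro U t hU ht
    have h1 : (nhdsWithin t {t}ᶜ).NeBot :=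
      ConnectedSpace.neBot_nhdsWithin_compl_of_nontrivial_of_t1space t
    have h2 : U \ {t} ∈ nhdsWithin t {t}ᶜ := by
      rw [Set.sdiff_eq]
      exact Filter.inter_mem (mem_nhdsWithin_of_mem_nhds (hU.mem_nhds ht)) self_mem_nhdsWithin
    exact Filter.nonempty_of_mem h2
  exact ⟨dg_eq_top hK, db_eq_top hK⟩
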